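import Mathlib
import Pool.Agent.K3h1.LA.Of

/-!
# The conjectural measure for the logarithms of the algebraic numbers near every integer, at most `q + 2` exceptions

Let `N` be ANY integer, `H ≥ N` ANY height and `w_1, ..., w_q` ANY complex numbers of absolute value at most `H`. Consider
all algebraic numbers `α = N - ζ`, where `ζ` is an algebraic number of degree at most `D` and of height at most `h` (that is,
the coefficients of the minimal polynomial of `ζ` over `ℤ` are at most `h` in absolute value), and `(h + 2) ^ E ≤ N`. The
theorem: with at most `q + 2` exceptions among these numbers (`q + 1` if we only look at the principal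
logarithms) the logarithms of ALL `r`-tuples `α_1, ..., α_r` of distinct numbers of this kind satisfy the measure of the
conjecture, relative to `w`: `|P (log α_1, ..., log α_r)| ≥ H ^ (- E)` for all polynomials `P` of degree at most `d` whose
coefficients are integer polynomials in `w` of degree at most `d` and height at most `H`, not
all of absolute value less than `H ^ (- E₀)`. The constant `E` depends only on `r`, `q`, `D`, `d`, `E₀`: neither on `N` nor
on `w`, and `w` can be chosen as we like (for instance, `w` can contain `π`, `e`, or the logarithms of the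
exceptional numbers themselves).

* For `q = 0` there is at most ONE exceptional number for the principal logarithms at each height `H ≥ N`, and at most two
  for all branches. For instance, `log (N - √2)`, `log (N + √2)`, `log (N - i)`, `log (N + i)`, `log (N + 1)` satisfy the
  measure at `H` for all large `N` (also together) unless the exceptional number is one of them.
* The second part: for fixed `N` and `w` one and the same exceptional set does it for arbitrarily large heights (from
  any given unbounded set of heights).

The logarithms of the integers `f (N)`, `f` monic and irreducible, are sums of such logarithms. The earlier results on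
this problem (`AlmostAllTuples`, `PolynomialValues`, `RelativeMeasure`) are about logarithms of integers.

The proof. Suppose that this fails for all `E`. In an ultraproduct (the elements of which are sequences of
complex numbers modulo those which are `O(H ^ (- C))` for all `C`) we find `q + 2` families of `r` numbers, each of them
avoiding the `ε`'s of the earlier ones, with an algebraic relation over the `q` constants; by each of the relations one
number `ε_i` of the family has its logarithm in the algebraic closure of the constants and of the logarithms of the others.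
Add all the conjugates: let `n` be the number of the conjugates of all numbers which occur, `u` of these. For
`N₀ = N - 2 (h + 1)` the `n` logarithms `log (1 - θ / t)`, where the `θ / t = (ζ - 2 (h + 1)) / N₀` are the conjugates in
question, are the images under a matrix with algebraic entries of the values at `1 / t` of the `n` G-functions
`∫ z ^ s / T (z) dz`, `s < n`, where `T ∈ ℤ[z]` has the inverse roots `θ`, and these values have a
measure of algebraic independence (`R351.GF.val_quant`, in the starting files). The discriminant of `T` is a nonzero
integer, and so the matrix is invertible also in the ultraproduct. Hence the `n` logarithms are algebraically independent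
there, but they lie in a field of transcendence degree at most `q + 1 + (u - (q + 2)) + (n - u) < n`.
-/

set_option autoImplicit false

namespace Pool.Agent.Results.MP_3cf473_nt.AlgebraicNumbersInWindows

open Polynomial

/-- `ζ` is a root of an irreducible polynomial in `ℤ[x]` of degree at most `D`, the coefficients of which are at most `h` in
absolute value: `ζ` is an algebraic number of degree at most `D` and height at most `h`. -/
def Bounded (D h : ℕ) (ζ : ℂ) : Prop :=
  ∃ f : ℤ[X], Irreducible f ∧ f.natDegree ≤ D ∧ (∀ m, |f.coeff m| ≤ h) ∧ aeval ζ f = 0

/-- The lower bound `|P (l)| ≥ H ^ (- E)` for all polynomials `P` of degree at most `d` whose coefficients are the values at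
`w` of integer polynomials of degree at most `d` and height at most `H`, such that at least one coefficient has absolute
value at least `H ^ (- E₀)`. (For `q = 0` the coefficients are integers, and the last condition is `P ≠ 0`, for `H ≥ 1`.) -/
def Measure {r q : ℕ} (d E₀ E : ℕ) (H : ℝ) (w : Fin q → ℂ) (l : Fin r → ℂ) : Prop :=
  ∀ P : MvPolynomial (Fin r) (MvPolynomial (Fin q) ℤ), P.totalDegree ≤ d → (∀ s, (P.coeff s).totalDegree ≤ d) →
    (∀ s t, |(((P.coeff s).coeff t : ℤ) : ℝ)| ≤ H) → (∃ s, 1 / H ^ E₀ ≤ ‖MvPolynomial.aeval w (P.coeff s)‖) →
    1 / H ^ E ≤ ‖MvPolynomial.eval₂ (MvPolynomial.aeval w : MvPolynomial (Fin q) ℤ →ₐ[ℤ] ℂ).toRingHom l P‖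

/-- For all distinct `ζ_1, ..., ζ_r` outside `G` of degree at most `D` and height at most `h`, and all logarithms `l_s` of
the numbers `N - ζ_s`, of any branch with `|Im l_s| ≤ H`, the measure holds. -/
def AllBranches {q : ℕ} (r D h d E₀ E N : ℕ) (H : ℝ) (w : Fin q → ℂ) (G : Finset ℂ) : Prop :=
  ∀ ζ : Fin r → ℂ, Function.Injective ζ → (∀ s, Bounded D h (ζ s) ∧ ζ s ∉ G) →
    ∀ l : Fin r → ℂ, (∀ s, Complex.exp (l s) = N - ζ s) → (∀ s, |(l s).im| ≤ H) →
    Measure d E₀ E H w l

/-- For all distinct `ζ_1, ..., ζ_r` outside `G` of degree at most `D` and height at most `h` the measure holds for the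
principal logarithms of the numbers `N - ζ_s`. -/
def PrincipalLogarithms {q : ℕ} (r D h d E₀ E N : ℕ) (H : ℝ) (w : Fin q → ℂ) (G : Finset ℂ) : Prop :=
  ∀ ζ : Fin r → ℂ, Function.Injective ζ → (∀ s, Bounded D h (ζ s) ∧ ζ s ∉ G) →
    Measure d E₀ E H w fun s => Complex.log (N - ζ s)

/-- **Main result.** -/
theorem result (r q D d E₀ : ℕ) : ∃ E : ℕ, ∀ h N : ℕ, (h + 2) ^ E ≤ N → ∀ w : Fin q → ℂ,
    (∀ H : ℝ, N ≤ H → (∀ i, ‖w i‖ ≤ H) →
      (∃ G : Finset ℂ, G.card ≤ q + 2 ∧ AllBranches r D h d E₀ E N H w G) ∧
      (∃ G : Finset ℂ, G.card ≤ q + 1 ∧ PrincipalLogarithms r D h d E₀ E N H w G)) ∧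
    (∀ 𝓗 : Set ℝ, ¬ BddAbove 𝓗 →
      (∃ G : Finset ℂ, G.card ≤ q + 2 ∧ ∀ H₀, ∃ H ∈ 𝓗, H₀ ≤ H ∧ AllBranches r D h d E₀ E N H w G) ∧
      (∃ G : Finset ℂ, G.card ≤ q + 1 ∧ ∀ H₀, ∃ H ∈ 𝓗, H₀ ≤ H ∧ PrincipalLogarithms r D h d E₀ E N H w G)) := by
  obtain ⟨E, h⟩ := Pool.Agent.K3h1.LA.fewMain r q D d E₀
  exact ⟨E, fun a N hN w => h a N hN w⟩

end Pool.Agent.Results.MP_3cf473_nt.AlgebraicNumbersInWindows
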