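import Mathlib
import Pool.Agent.K3h1.LA.Pt

/-!
# The conjectural measure of algebraic independence for the logarithms of the values of all polynomials with algebraic
# coefficients at almost all integers

For all `k`, `K`, `D` and `d` there is a constant `C` such that the following holds for all `T ≥ 1`. For a tuple
`n = (n_1, ..., n_k)` of integers in `[1, T]` we consider ALL families of polynomials `f_{i,1}, ..., f_{i,K} ∈ ℂ[x]`
(`i = 1, ..., k`) of degree between `1` and `D`, squarefree and pairwise coprime for every `i`, whose coefficients are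
algebraic numbers of degree at most `D` and height at most `T ^ (1 / C)` (roots of nonzero polynomials in `ℤ[x]` of degree
at most `D` with coefficients at most `T ^ (1 / C)` in absolute value), and the logarithms `l_{i,s}` (of any branch) of the
`k K` algebraic numbers `f_{i,s} (n_i)`.

* For all but at most `C T ^ (k - 1 / C)` of the `T ^ k` tuples `n` the lower bound `|P (l)| ≥ (T H) ^ (- C)` holds for all
  these families, all heights `2 ≤ H ≤ exp (exp (T ^ (1 / C)))`, all logarithms with `|Im (l_{i,s})| ≤ H` and all nonzero
  polynomials `P` with integer coefficients, of degree at most `d` and height at most `H`.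
* For every single height `H ≥ T`, the lower bound `|P (l)| ≥ H ^ (- C)` holds for all these families, for all but at most
  `C T ^ (k - 1 / C)` of the tuples.
* For every unbounded set of heights the same holds for arbitrarily large heights in the set.

For `k = 1`: for almost all `n` the logarithms of the numbers of every family, such as `n, n + 1, ..., n + K - 1`, or
`n + √2, n - √2, n + i, n - i, n + 1 / 2`, or `√2 n ^ 3 + n + √5, n ^ 2 + 1`, have the conjectured measure, all these
families at once. The starting file `AlmostAllTuples` is about the logarithms of the `k` integers `n_1, ..., n_k`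
themselves, that is about almost all `k`-tuples of integers; here the tuples are thin. The result
`AlgebraicNumbersInWindows` of this problem is about every integer `N`, with exceptional numbers near `N`; here there is no
exceptional family at the tuples which are not exceptional.

The proof. Let `N` be an integer, let `β_1, ..., β_m` be small integers and let `ζ_s` be the roots of the polynomials, which
are algebraic numbers of bounded degree and of height at most `T ^ (E / C)` (`K3h1.LA.roots_near`). The numbers
`log (N + β_j - ζ_s)` and their conjugates are, up to `log N₀`, linear combinations with algebraic coefficients of values of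
the G-functions `∫ z ^ s / T (z) dz` at `1 / t`, where the inverse roots of `T` are the conjugates of `ζ_s - β_j`, up to a
common factor (`K3h1.LA.num_cls`; `R351.GF.val_quant` in the starting library). If the measure fails at height `H` for
many `n`, then in an ultraproduct the logarithms of the values at each of `m` nearby bad integers
`N + β_1, ..., N + β_m` are algebraically dependent over a field of finite transcendence degree, so that all the
`log (N + β_j - ζ_s)` lie in a field of too small a transcendence degree, a contradiction for large `m`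
(`K3h1.LA.exists_goodN`, `K3h1.LA.exists_goodP`). Tuples are treated by fibration.
-/

set_option autoImplicit false

namespace Pool.Agent.Results.MP_3cf473_nt.AlgebraicPolynomialValues

open Polynomial

/-- The tuples `n` of `k` integers with `1 ≤ n i ≤ T`. -/
def box (k T : ℕ) : Finset (Fin k → ℕ) := Fintype.piFinset fun _ => Finset.Icc 1 T

/-- There are logarithms `l i` of the numbers `v i` (of any branch with `|Im (l i)| ≤ H`) and a nonzero
polynomial `P` with integer coefficients, of total degree at most `d` and height at most `H`, such that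
`|P (l)| < η`. -/
def Small {σ : Type} (d : ℕ) (H η : ℝ) (v : σ → ℂ) : Prop :=
  ∃ l : σ → ℂ, (∀ i, Complex.exp (l i) = v i) ∧ (∀ i, |(l i).im| ≤ H) ∧
    ∃ P : MvPolynomial σ ℤ, P ≠ 0 ∧ P.totalDegree ≤ d ∧ (∀ s, |((P.coeff s : ℤ) : ℝ)| ≤ H) ∧
      ‖MvPolynomial.aeval l P‖ < η

/-- `z` is a root of a nonzero polynomial in `ℤ[x]` of degree at most `D` with coefficients at most `h` in absolute
value. -/
def Algebraic (D : ℕ) (h : ℝ) (z : ℂ) : Prop :=
  ∃ g : ℤ[X], g ≠ 0 ∧ g.natDegree ≤ D ∧ (∀ m, |((g.coeff m : ℤ) : ℝ)| ≤ h) ∧ aeval z g = 0

/-- The polynomials `f 0, ..., f (K - 1)` have degree between `1` and `D`, their coefficients are algebraic numbers of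
degree at most `D` and height at most `h`, and their product is squarefree (that is, they are squarefree and pairwise
coprime). -/
def Family {K : ℕ} (D : ℕ) (h : ℝ) (f : Fin K → ℂ[X]) : Prop :=
  (∀ s, 1 ≤ (f s).natDegree ∧ (f s).natDegree ≤ D) ∧ (∀ s m, Algebraic D h ((f s).coeff m)) ∧ Squarefree (∏ s, f s)

/-- The `k K` algebraic numbers `f_{i,s} (n_i)`. -/
noncomputable def values {k K : ℕ} (f : Fin k → Fin K → ℂ[X]) (n : Fin k → ℕ) (p : Fin k × Fin K) : ℂ :=
  (f p.1 p.2).eval (n p.1 : ℂ)

open Classical in
/-- **Main result.** -/
theorem result (k K D d : ℕ) : ∃ C : ℕ, 0 < C ∧ ∀ T : ℕ, 1 ≤ T →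
    ((((box k T).filter fun n =>
        ∃ f : Fin k → Fin K → ℂ[X], (∀ i, Family D ((T : ℝ) ^ (1 / (C : ℝ))) (f i)) ∧
          ∃ H : ℝ, 2 ≤ H ∧ H ≤ Real.exp (Real.exp ((T : ℝ) ^ (1 / (C : ℝ)))) ∧
            Small d H (1 / (T * H) ^ C) (values f n)).card : ℝ) ≤
        C * (T : ℝ) ^ ((k : ℝ) - 1 / C)) ∧
    (∀ H : ℝ, 2 ≤ H → T ≤ H →
      (((box k T).filter fun n =>
        ∃ f : Fin k → Fin K → ℂ[X], (∀ i, Family D ((T : ℝ) ^ (1 / (C : ℝ))) (f i)) ∧
          Small d H (1 / H ^ C) (values f n)).card : ℝ) ≤ C * (T : ℝ) ^ ((k : ℝ) - 1 / C)) ∧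
    (∀ 𝓗 : Set ℝ, ¬ BddAbove 𝓗 →
      (((box k T).filter fun n =>
        ∃ f : Fin k → Fin K → ℂ[X], (∀ i, Family D ((T : ℝ) ^ (1 / (C : ℝ))) (f i)) ∧
          ∃ H₀ : ℝ, ∀ H ∈ 𝓗, H₀ ≤ H → Small d H (1 / H ^ C) (values f n)).card : ℝ) ≤
        C * (T : ℝ) ^ ((k : ℝ) - 1 / C)) := by
  obtain ⟨C, hC, h⟩ := Pool.Agent.K3h1.LA.mainQ k K D d
  exact ⟨C, hC, fun T hT => h T hT⟩

end Pool.Agent.Results.MP_3cf473_nt.AlgebraicPolynomialValues
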