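import Mathlib
import Pool.Agent.K3h34.RM.Ext

/-!
# Adjoining the logarithms of almost all integers to a tuple with a measure of algebraic independence

Known (`AlmostAllTuples`): for almost all `k`-tuples `n` of integers in `[1, T]` (with a power saving for
the number of exceptions) the logarithms of the `n i` satisfy the lower bound of the conjecture,
`|P (log n_1, ..., log n_k)| ≥ H ^ (- C)`, in a doubly exponential range of heights, and for
arbitrarily large heights.

Here the coefficients of the polynomials `P` are not integers but combinations, with integers of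
absolute value at most `H`, of arbitrary given complex numbers `v_1, ..., v_s` (for example monomials
in other logarithms, in `π`, in `e`, or Liouville numbers; the `v_i` may also depend on `H`).
The lower bound `|P (l)| ≥ H ^ (- C)` holds for all logarithms `l i` of the `n i`, all `P` of degree at
most `d` at least one coefficient of which is not smaller than `H ^ (- B)`, outside of a set of at
most `C T ^ (k - 1 / C)` tuples; the constant `C` depends only on `k`, `d`, `B`, `s`, not on the `v_i`.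

It follows that the conjecture is inherited: if numbers `λ_1, ..., λ_m`, for example logarithms of
algebraic numbers, satisfy the lower bound with the exponent `B` at the height `H`, then for almost
all tuples `n` the `k + m` numbers `log n_1, ..., log n_k, λ_1, ..., λ_m` satisfy it with an exponent
`C` which depends only on `k`, `m`, `d` and `B`.

This holds

* for each single height `H ≥ T`;
* for all heights `T ≤ H ≤ exp (exp (T ^ (1 / C)))` simultaneously;
* for most heights up to infinity: for infinitely many `I` at most `T ^ (- 1 / C) I` of the `I` intervals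
  `[2 ^ (2 ^ i), 2 ^ (2 ^ (i + 1))]`, `i < I`, contain an exceptional height (the upper density of the
  good intervals is at least `1 - T ^ (- 1 / C)`). This is new also for `m = 0`, where only the
  existence of arbitrarily large good heights was known.

The proof is a relative form of the proof of `AlmostAllTuples` (`Pool.Agent.R351.GF`: lower bounds for
polynomials in `log (1 + β / t)`, and the field of the sequences of polynomial growth modulo the
negligible sequences); the classes of the numbers `v_i`, and `2 π i`, are adjoined to the ring of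
coefficients.
-/

set_option autoImplicit false

namespace Pool.Agent.Results.MP_3cf473_nt.RelativeMeasure

open Filter

/-- The tuples `n` of `k` integers with `1 ≤ n i ≤ T`. -/
def box (k T : ℕ) : Finset (Fin k → ℕ) := Fintype.piFinset fun _ => Finset.Icc 1 T

/-- There are logarithms `l i` of the integers `n i` (of any branch with `|Im (l i)| ≤ H`) and a
polynomial `P` of total degree at most `d`, whose coefficients are combinations of the numbers `v i`
with integers of absolute value at most `H`, such that at least one coefficient of `P` has absolute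
value at least `H ^ (- B)` and `|P (l)| < H ^ (- C)`. -/
def SmallOver {k s : ℕ} (d B C : ℕ) (H : ℝ) (v : Fin s → ℂ) (n : Fin k → ℕ) : Prop :=
  ∃ l : Fin k → ℂ, (∀ i, Complex.exp (l i) = n i) ∧ (∀ i, |(l i).im| ≤ H) ∧
    ∃ P : MvPolynomial (Fin k) ℂ, P.totalDegree ≤ d ∧
      (∀ e, ∃ a : Fin s → ℤ, (∀ i, |(a i : ℝ)| ≤ H) ∧ P.coeff e = ∑ i, (a i : ℂ) * v i) ∧
      (∃ e, 1 / H ^ B ≤ ‖P.coeff e‖) ∧ ‖MvPolynomial.eval l P‖ < 1 / H ^ C

/-- The lower bound of the conjecture for the numbers `x i` at the height `H`: `|P (x)| ≥ H ^ (- C)` for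
all nonzero polynomials `P` with integer coefficients, of total degree at most `d` and height at most
`H`. -/
def HasMeasure {σ : Type} (d C : ℕ) (H : ℝ) (x : σ → ℂ) : Prop :=
  ∀ P : MvPolynomial σ ℤ, P ≠ 0 → P.totalDegree ≤ d → (∀ s, |((P.coeff s : ℤ) : ℝ)| ≤ H) →
    1 / H ^ C ≤ ‖MvPolynomial.aeval x P‖

/-- The numbers `lam j` have the lower bound with the exponent `B` at the height `H`, but for some
logarithms `l i` of the `n i` (of any branch with `|Im (l i)| ≤ H`) the numbers `l i`, `lam j` do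
not have it with the exponent `C`. -/
def Lost {k m : ℕ} (d B C : ℕ) (H : ℝ) (lam : Fin m → ℂ) (n : Fin k → ℕ) : Prop :=
  HasMeasure d B H lam ∧ ∃ l : Fin k → ℂ, (∀ i, Complex.exp (l i) = n i) ∧ (∀ i, |(l i).im| ≤ H) ∧
    ¬ HasMeasure d C H (Sum.elim l lam)

/-- For infinitely many `I` at most `ε I` of the intervals `[2 ^ (2 ^ i), 2 ^ (2 ^ (i + 1))]`, `i < I`,
contain an element of `𝓗`. -/
def FewIntervals (ε : ℝ) (𝓗 : Set ℝ) : Prop :=
  ∃ᶠ I : ℕ in atTop,
    ({i | i < I ∧ ∃ H ∈ 𝓗, (2 : ℝ) ^ 2 ^ i ≤ H ∧ H ≤ 2 ^ 2 ^ (i + 1)}.ncard : ℝ) ≤ ε * I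

open Pool.Agent.K3h34.RM

theorem few_iff (k T d B C s : ℕ) (v : Fin s → ℂ) (n : Fin k → ℕ)
    (hn : n ∈ Fintype.piFinset fun _ : Fin k => Finset.Ioc 0 T) (ε : ℝ)
    (h : ∃ᶠ I : ℕ in atTop, open Classical in (((Finset.range I).filter fun i =>
          n ∈ exS k d B C T (Set.Icc ((2 : ℝ) ^ 2 ^ i) (((2 : ℝ) ^ 2 ^ i) ^ 2)) v).card : ℝ) ≤ ε * I)
    {𝓗 : Set ℝ} (h𝓗 : ∀ H ∈ 𝓗, SmlR d B C H v n) : FewIntervals ε 𝓗 := by
  classical
  refine h.mono fun I hI => le_trans ?_ hI
  rw [← Set.ncard_coe_finset]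
  apply Nat.cast_le.2
  apply Set.ncard_le_ncard _ (Finset.finite_toSet _)
  rintro i ⟨hiI, H, hH, h1, h2⟩
  rw [Finset.mem_coe, Finset.mem_filter, Finset.mem_range]
  refine ⟨hiI, Finset.mem_filter.2 ⟨hn, H, ⟨h1, ?_⟩, h𝓗 H hH⟩⟩
  rw [← pow_mul, ← pow_succ]
  exact h2

open Classical in
/-- **Main result.** -/
theorem result (k d B : ℕ) (hB : 1 ≤ B) :
    (∀ s : ℕ, ∃ C : ℕ, 0 < C ∧ ∀ T : ℕ, 1 ≤ T →
      (∀ H : ℝ, 2 ≤ H → T ≤ H → ∀ v : Fin s → ℂ, (∀ i, ‖v i‖ ≤ H ^ B) →
        (((box k T).filter fun n => SmallOver d B C H v n).card : ℝ) ≤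
          C * (T : ℝ) ^ ((k : ℝ) - 1 / C)) ∧
      (∀ v : Fin s → ℂ, (∀ i, ‖v i‖ ≤ (T : ℝ) ^ B) →
        (((box k T).filter fun n => ∃ H : ℝ, 2 ≤ H ∧ T ≤ H ∧
          H ≤ Real.exp (Real.exp ((T : ℝ) ^ (1 / (C : ℝ)))) ∧ SmallOver d B C H v n).card : ℝ) ≤
          C * (T : ℝ) ^ ((k : ℝ) - 1 / C)) ∧
      (∀ v : Fin s → ℂ,
        (((box k T).filter fun n => ¬ FewIntervals ((T : ℝ) ^ (-(1 / (C : ℝ))))
          {H | SmallOver d B C H v n}).card : ℝ) ≤ C * (T : ℝ) ^ ((k : ℝ) - 1 / C))) ∧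
    (∀ m : ℕ, ∃ C : ℕ, 0 < C ∧ ∀ T : ℕ, 1 ≤ T →
      (∀ H : ℝ, 2 ≤ H → T ≤ H → ∀ lam : Fin m → ℂ, (∀ i, ‖lam i‖ ≤ H) →
        (((box k T).filter fun n => Lost d B C H lam n).card : ℝ) ≤
          C * (T : ℝ) ^ ((k : ℝ) - 1 / C)) ∧
      (∀ lam : Fin m → ℂ, (∀ i, ‖lam i‖ ≤ T) →
        (((box k T).filter fun n => ∃ H : ℝ, 2 ≤ H ∧ T ≤ H ∧
          H ≤ Real.exp (Real.exp ((T : ℝ) ^ (1 / (C : ℝ)))) ∧ Lost d B C H lam n).card : ℝ) ≤
          C * (T : ℝ) ^ ((k : ℝ) - 1 / C)) ∧
      (∀ lam : Fin m → ℂ,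
        (((box k T).filter fun n => ¬ FewIntervals ((T : ℝ) ^ (-(1 / (C : ℝ))))
          {H | Lost d B C H lam n}).card : ℝ) ≤ C * (T : ℝ) ^ ((k : ℝ) - 1 / C))) := by
  have hI : ∀ T : ℕ, Finset.Ioc 0 T = Finset.Icc 1 T := fun T => rfl
  refine ⟨fun s => ?_, fun m => ?_⟩
  · obtain ⟨K, hK, h⟩ := main k d B s hB
    refine ⟨K, hK, fun T hT => ?_⟩
    obtain ⟨h1, h2, h3⟩ := h K le_rfl T hT
    refine ⟨fun H hH hTH v hv => ?_, fun v hv => ?_, fun v => ?_⟩
    · refine le_trans ?_ (h1 H hTH hH v hv)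
      apply Nat.cast_le.2
      apply Finset.card_le_card
      intro n hn
      obtain ⟨hnB, hsm⟩ := Finset.mem_filter.1 hn
      exact Finset.mem_filter.2 ⟨hnB, H, ⟨le_rfl, by nlinarith⟩, hsm⟩
    · refine le_trans ?_ (h2 v (fun i => (hv i).trans
        (pow_le_pow_left₀ (Nat.cast_nonneg _) (le_max_right _ _) _)))
      apply Nat.cast_le.2
      apply Finset.card_le_card
      intro n hn
      obtain ⟨hnB, H, hH2, hHT, hHx, hsm⟩ := Finset.mem_filter.1 hn
      exact Finset.mem_filter.2 ⟨hnB, H, ⟨hH2, hHT, hHx⟩, hsm⟩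
    · refine le_trans ?_ (h3 v)
      apply Nat.cast_le.2
      apply Finset.card_le_card
      intro n hn
      obtain ⟨hnB, hsm⟩ := Finset.mem_filter.1 hn
      exact Finset.mem_filter.2 ⟨hnB, fun hf => hsm (few_iff k T d B K s v n hnB _ hf fun H hH => hH)⟩
  · set B' := max B d with hB'
    obtain ⟨K, hK, h⟩ := main k d B' (Fintype.card (Pool.Agent.Y916.Mn m d)) (hB.trans (le_max_left _ _))
    refine ⟨K, hK, fun T hT => ?_⟩
    obtain ⟨h1, h2, h3⟩ := h K le_rfl T hT
    -- the lower bound with a larger exponent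
    have hmono : ∀ {lam : Fin m → ℂ} {H : ℝ}, 1 ≤ H → HasMeasure d B H lam → Meas d B' H lam := by
      intro lam H hH hM P hP0 hPd hPH
      refine le_trans ?_ (hM P hP0 hPd hPH)
      exact one_div_le_one_div_of_le (by positivity) (pow_le_pow_right₀ hH (le_max_left _ _))
    have hsml : ∀ {lam : Fin m → ℂ} {H : ℝ} {n : Fin k → ℕ}, 1 ≤ H → Lost d B K H lam n →
        SmlR d B' K H (vm d lam) n := by
      intro lam H n hH hL
      obtain ⟨hM, l, hl1, hl2, hl3⟩ := hL
      exact smlR_of_badX (hmono hH hM) ⟨l, hl1, hl2, hl3⟩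
    refine ⟨fun H hH hTH lam hlam => ?_, fun lam hlam => ?_, fun lam => ?_⟩
    · refine le_trans ?_ (h1 H hTH hH (vm d lam) (fun i => (vm_norm_le (by linarith) hlam i).trans
        (pow_le_pow_right₀ (by linarith) (le_max_right _ _))))
      apply Nat.cast_le.2
      apply Finset.card_le_card
      intro n hn
      obtain ⟨hnB, hsm⟩ := Finset.mem_filter.1 hn
      exact Finset.mem_filter.2 ⟨hnB, H, ⟨le_rfl, by nlinarith⟩, hsml (by linarith) hsm⟩
    · have hY : (1 : ℝ) ≤ max 2 (T : ℝ) := le_trans (by norm_num) (le_max_left _ _)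
      refine le_trans ?_ (h2 (vm d lam) (fun i => (vm_norm_le hY
        (fun j => (hlam j).trans (le_max_right _ _)) i).trans
        (pow_le_pow_right₀ hY (le_max_right _ _))))
      apply Nat.cast_le.2
      apply Finset.card_le_card
      intro n hn
      obtain ⟨hnB, H, hH2, hHT, hHx, hsm⟩ := Finset.mem_filter.1 hn
      exact Finset.mem_filter.2 ⟨hnB, H, ⟨hH2, hHT, hHx⟩, hsml (by linarith) hsm⟩
    · refine le_trans ?_ (h3 (vm d lam))
      apply Nat.cast_le.2
      apply Finset.card_le_card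
      intro n hn
      obtain ⟨hnB, hsm⟩ := Finset.mem_filter.1 hn
      refine Finset.mem_filter.2 ⟨hnB, fun hf => hsm ?_⟩
      -- only heights at least 2 occur in the intervals
      have h4 := few_iff k T d B' K _ (vm d lam) n hnB _ hf
        (𝓗 := {H | 1 ≤ H ∧ Lost d B K H lam n}) (fun H hH => hsml hH.1 hH.2)
      refine h4.mono fun I hI' => le_trans (le_of_eq ?_) hI'
      congr 2
      ext i
      constructor
      · rintro ⟨hiI, H, hH, h5, h6⟩
        exact ⟨hiI, H, ⟨(one_le_pow₀ (by norm_num : (1 : ℝ) ≤ 2)).trans h5, hH⟩, h5, h6⟩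
      · rintro ⟨hiI, H, hH, h5, h6⟩
        exact ⟨hiI, H, hH.2, h5, h6⟩

end Pool.Agent.Results.MP_3cf473_nt.RelativeMeasure
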