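import Pool.Agent.Results.MP_3cf473_nt.AlgebraicPolynomialValues
import Pool.Agent.R482.ST.Vec

/-!
# The measure of algebraic independence for the logarithms of the values of polynomials with algebraic coefficients at
# ALL tuples of integers near powers, orbits and other sequences

Let `g_j`, `j = 0, 1, 2, …`, be positive functions on `(a, ∞)`, `a ≥ 0`, such that `g_j(t) / t` is nondecreasing and
such that the sequence `g_j(t)` has exponent of convergence at most `τ` for each `t > a`: for instance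
`g_j(t) = t ^ (v_j)` for exponents `v_j ≥ 1` growing faster than `log j` (`τ = 0`; all powers, the powers `t ^ (3 ^ j)`,
…), the orbits `g_j(t) = g (g (⋯ g (t)))` of a map `g` with `g(t) > t` and `g(t) / t` nondecreasing (`τ = 0`; for
instance of `t² + c`), and `g_j(t) = b ^ j t`, `j ^ (1 / τ) t`.

For all `k`, `K`, `D`, `d` there is a constant `C` with the following property. For all vectors `u ∈ ℝ ^ k`, `‖u‖ > a`,
outside a set of Hausdorff dimension at most `(k - 1 / C + τ) / (1 - θ)` and each `c`, for all but finitely many `j`,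
for ALL `k`-tuples `n` of positive integers at distance at most `c g_j(‖u‖) ^ θ` from the vector
`(g_j(‖u‖) / ‖u‖) u`, and ALL families of polynomials `f_{i,1}, ..., f_{i,K} ∈ ℂ[x]` (`i = 1, ..., k`), not constant, of
degree at most `D`, squarefree and pairwise coprime for every `i`, whose coefficients are algebraic numbers of degree at
most `D` and height at most `|n| ^ (1 / C)`, the logarithms `l_{i,s}` of the `k K` algebraic numbers `f_{i,s} (n_i)`
satisfy `|P (l)| ≥ (|n| H) ^ (- C)` for all heights `2 ≤ H ≤ exp (exp (|n| ^ (1 / C)))`, all logarithms with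
`|Im (l_{i,s})| ≤ H` and all nonzero polynomials `P` with integer coefficients, of degree at most `d` and height at most
`H`; and for any given unbounded set of heights `|P (l)| ≥ H ^ (- C)` holds for arbitrarily large heights `H` in the set.

The dimension is smaller than `k`, so that almost all vectors are admitted, if `k θ + τ < 1 / C`. For `k = 1`: for
almost every `α > 1` there is no exception `n` near any of the powers `α ^ j`, `j` large: the logarithms of `n, n + 1,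
..., n + K - 1`, or of `n + √2, n - √2, n ^ 2 + i`, satisfy no relation of degree `d` with coefficients up to a doubly
exponential size, for instance for `n = ⌊α ^ j⌋`.

`AlgebraicPolynomialValues` bounds the number of the tuples at which the measure fails for some family; the proof puts
the exceptions of the dyadic shells together and uses the theorem `Pool.Agent.R482.ST.vec_prop` on thin sets of
vectors and starshaped maps.
-/

set_option autoImplicit false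

namespace Pool.Agent.Results.MP_3cf473_nt.StarshapedAlgebraicValues

open Polynomial Pool.Agent.R482.ST
open Pool.Agent.Results.MP_3cf473_nt.AlgebraicPolynomialValues

lemma Small.mono {σ : Type} {d : ℕ} {H η η' : ℝ} {v : σ → ℂ} (h : Small d H η v) (hη : η ≤ η') :
    Small d H η' v := by
  obtain ⟨l, h1, h2, P, h3, h4, h5, h6⟩ := h
  exact ⟨l, h1, h2, P, h3, h4, h5, h6.trans_le hη⟩

lemma Family.mono {K D : ℕ} {h h' : ℝ} {f : Fin K → ℂ[X]} (hf : Family D h f) (hh : h ≤ h') :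
    Family D h' f := by
  refine ⟨hf.1, fun s m => ?_, hf.2.2⟩
  obtain ⟨q, h0, h1, h2, h3⟩ := hf.2.1 s m
  exact ⟨q, h0, h1, fun i => (h2 i).trans hh, h3⟩

/-- the maximum of the entries -/
noncomputable def size {k : ℕ} (n : Fin k → ℕ) : ℝ := ‖(fun i => (n i : ℝ) : Fin k → ℝ)‖

lemma le_size {k : ℕ} (n : Fin k → ℕ) (i : Fin k) : (n i : ℝ) ≤ size n := by
  have h := norm_le_pi_norm (fun i => (n i : ℝ) : Fin k → ℝ) i
  rwa [Real.norm_eq_abs, abs_of_nonneg (Nat.cast_nonneg _)] at h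

lemma size_le {k : ℕ} {n : Fin k → ℕ} {X : ℝ} (hX : 0 ≤ X) (h : ∀ i, (n i : ℝ) ≤ X) :
    size n ≤ X := by
  unfold size
  rw [pi_norm_le_iff_of_nonneg hX]
  intro i
  rw [Real.norm_eq_abs, abs_of_nonneg (Nat.cast_nonneg _)]
  exact h i

/-- the exceptional tuples -/
def Bad (K D d C : ℕ) (𝓗 : Set ℝ) {k : ℕ} (n : Fin k → ℕ) : Prop :=
  (∀ i, 1 ≤ n i) ∧ ∃ f : Fin k → Fin K → ℂ[X], (∀ i, Family D (size n ^ (1 / ((2 * C : ℕ) : ℝ))) (f i)) ∧
    ((∃ H : ℝ, 2 ≤ H ∧ H ≤ Real.exp (Real.exp (size n ^ (1 / ((2 * C : ℕ) : ℝ)))) ∧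
      Small d H (1 / (size n * H) ^ (2 * C)) (values f n)) ∨
    ∃ H₀ : ℝ, ∀ H ∈ 𝓗, H₀ ≤ H → Small d H (1 / H ^ (2 * C)) (values f n))

open scoped Classical in
/-- the exceptional tuples of a dyadic shell -/
lemma shell {k K D d C : ℕ} (hC : 0 < C) (𝓗 : Set ℝ) (T : ℕ) (hT : 1 ≤ T) (n : Fin k → ℕ)
    (h1 : 1 ≤ size n) (h2 : size n ≤ T) (h3 : (T : ℝ) ≤ 2 * size n) (hB : Bad K D d C 𝓗 n) :
    n ∈ ((box k T).filter fun n =>
        ∃ f : Fin k → Fin K → ℂ[X], (∀ i, Family D ((T : ℝ) ^ (1 / (C : ℝ))) (f i)) ∧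
          ∃ H : ℝ, 2 ≤ H ∧ H ≤ Real.exp (Real.exp ((T : ℝ) ^ (1 / (C : ℝ)))) ∧
            Small d H (1 / (T * H) ^ C) (values f n)) ∪
      ((box k T).filter fun n =>
        ∃ f : Fin k → Fin K → ℂ[X], (∀ i, Family D ((T : ℝ) ^ (1 / (C : ℝ))) (f i)) ∧
          ∃ H₀ : ℝ, ∀ H ∈ 𝓗, H₀ ≤ H → Small d H (1 / H ^ C) (values f n)) := by
  obtain ⟨hn, f, hf, hB⟩ := hB
  have hC1 : (1 : ℝ) ≤ C := by exact_mod_cast hC
  have hC0 : (0 : ℝ) < C := by linarith
  have hT1 : (1 : ℝ) ≤ T := by exact_mod_cast hT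
  have hpow : size n ^ (1 / ((2 * C : ℕ) : ℝ)) ≤ (T : ℝ) ^ (1 / (C : ℝ)) := by
    calc size n ^ (1 / ((2 * C : ℕ) : ℝ)) ≤ size n ^ (1 / (C : ℝ)) := by
          apply Real.rpow_le_rpow_of_exponent_le h1
          apply one_div_le_one_div_of_le hC0
          push_cast
          linarith
      _ ≤ (T : ℝ) ^ (1 / (C : ℝ)) := Real.rpow_le_rpow (by linarith) h2 (by positivity)
  have hbox : n ∈ box k T := by
    rw [box, Fintype.mem_piFinset]
    intro i
    rw [Finset.mem_Icc]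
    refine ⟨hn i, ?_⟩
    have := (le_size n i).trans h2
    exact_mod_cast this
  have hf' : ∀ i, Family D ((T : ℝ) ^ (1 / (C : ℝ))) (f i) := fun i => Family.mono (hf i) hpow
  rw [Finset.mem_union]
  rcases hB with ⟨H, e1, e2, e3⟩ | ⟨H₀, e1⟩
  · left
    rw [Finset.mem_filter]
    refine ⟨hbox, f, hf', H, e1, e2.trans ?_, Small.mono e3 ?_⟩
    · exact Real.exp_le_exp.2 (Real.exp_le_exp.2 hpow)
    · have g1 : (0 : ℝ) < T * H := by positivity
      apply one_div_le_one_div_of_le (pow_pos g1 _)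
      rw [pow_mul]
      apply pow_le_pow_left₀ g1.le
      have g2 : (2 : ℝ) ≤ size n * H := by nlinarith
      calc (T : ℝ) * H ≤ 2 * size n * H := by nlinarith
        _ = 2 * (size n * H) := by ring
        _ ≤ (size n * H) * (size n * H) := by nlinarith
        _ = (size n * H) ^ 2 := by ring
  · right
    rw [Finset.mem_filter]
    refine ⟨hbox, f, hf', max H₀ 1, fun H hH hm => Small.mono (e1 H hH ((le_max_left _ _).trans hm)) ?_⟩
    have g1 : (1 : ℝ) ≤ H := (le_max_right _ _).trans hm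
    apply one_div_le_one_div_of_le (by positivity)
    exact pow_le_pow_right₀ g1 (by omega)

open scoped Classical in
/-- the number of exceptional tuples -/
lemma bad_card {k K D d C : ℕ} (hk : 0 < k) (hC : 0 < C) (𝓗 : Set ℝ)
    (h : ∀ T : ℕ, 1 ≤ T →
      (((box k T).filter fun n =>
        ∃ f : Fin k → Fin K → ℂ[X], (∀ i, Family D ((T : ℝ) ^ (1 / (C : ℝ))) (f i)) ∧
          ∃ H : ℝ, 2 ≤ H ∧ H ≤ Real.exp (Real.exp ((T : ℝ) ^ (1 / (C : ℝ)))) ∧
            Small d H (1 / (T * H) ^ C) (values f n)).card : ℝ) ≤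
        C * (T : ℝ) ^ ((k : ℝ) - 1 / C) ∧
      (((box k T).filter fun n =>
        ∃ f : Fin k → Fin K → ℂ[X], (∀ i, Family D ((T : ℝ) ^ (1 / (C : ℝ))) (f i)) ∧
          ∃ H₀ : ℝ, ∀ H ∈ 𝓗, H₀ ≤ H → Small d H (1 / H ^ C) (values f n)).card : ℝ) ≤
        C * (T : ℝ) ^ ((k : ℝ) - 1 / C)) (ε : ℝ) (hε : 0 < ε) :
    ∃ A : ℝ, ∀ X : ℕ, 1 ≤ X →
      ({z : Fin k → ℤ | (∀ i, |z i| ≤ (X : ℤ)) ∧
        ∃ n : Fin k → ℕ, (∀ i, (n i : ℤ) = z i) ∧ Bad K D d C 𝓗 n}.ncard : ℝ) ≤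
        A * (X : ℝ) ^ ((k : ℝ) - 1 / C + ε) := by
  set s : ℝ := (k : ℝ) - 1 / C with hs
  have hC1 : (1 : ℝ) ≤ C := by exact_mod_cast hC
  have hk1 : (1 : ℝ) ≤ k := by exact_mod_cast hk
  have hs0 : 0 ≤ s := by
    have : 1 / (C : ℝ) ≤ 1 := by
      rw [div_le_one (by linarith)]
      exact hC1
    rw [hs]
    linarith
  set A : ℕ → Finset (Fin k → ℕ) := fun T => ((box k T).filter fun n =>
        ∃ f : Fin k → Fin K → ℂ[X], (∀ i, Family D ((T : ℝ) ^ (1 / (C : ℝ))) (f i)) ∧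
          ∃ H : ℝ, 2 ≤ H ∧ H ≤ Real.exp (Real.exp ((T : ℝ) ^ (1 / (C : ℝ)))) ∧
            Small d H (1 / (T * H) ^ C) (values f n)) with hA
  set B : ℕ → Finset (Fin k → ℕ) := fun T => ((box k T).filter fun n =>
        ∃ f : Fin k → Fin K → ℂ[X], (∀ i, Family D ((T : ℝ) ^ (1 / (C : ℝ))) (f i)) ∧
          ∃ H₀ : ℝ, ∀ H ∈ 𝓗, H₀ ≤ H → Small d H (1 / H ^ C) (values f n)) with hB
  refine ⟨2 * C * 2 ^ s * (1 + 1 / (ε * Real.log 2)), fun X hX => ?_⟩
  have hX1 : (1 : ℝ) ≤ X := by exact_mod_cast hX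
  have hX0 : (0 : ℝ) < X := by linarith
  set J := Nat.log 2 X + 1 with hJ
  set ι : (Fin k → ℕ) → (Fin k → ℤ) := fun n i => (n i : ℤ) with hι
  have hcov : {z : Fin k → ℤ | (∀ i, |z i| ≤ (X : ℤ)) ∧
        ∃ n : Fin k → ℕ, (∀ i, (n i : ℤ) = z i) ∧ Bad K D d C 𝓗 n} ⊆
      (((Finset.range J).biUnion fun j => A (2 ^ (j + 1)) ∪ B (2 ^ (j + 1))).image ι :
        Set (Fin k → ℤ)) := by
    rintro z ⟨hz, n, hn, hBn⟩
    have hzn : ι n = z := funext hn
    rw [← hzn, Finset.mem_coe]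
    apply Finset.mem_image_of_mem
    have h0 : 1 ≤ size n := by
      have h1 := hBn.1 ⟨0, hk⟩
      have h2 := le_size n ⟨0, hk⟩
      have h3 : (1 : ℝ) ≤ (n ⟨0, hk⟩ : ℝ) := by exact_mod_cast h1
      linarith
    have h2 : size n ≤ X := size_le hX0.le fun i => by
      have e1 := hz i
      rw [← hn i, abs_of_nonneg (by positivity)] at e1
      exact_mod_cast e1
    obtain ⟨j, hj1, hj2⟩ := exists_nat_pow_near h0 (by norm_num : (1 : ℝ) < 2)
    rw [Finset.mem_biUnion]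
    refine ⟨j, ?_, ?_⟩
    · rw [Finset.mem_range, hJ, Nat.lt_succ_iff]
      apply (Nat.le_log_iff_pow_le (by norm_num) (by omega)).2
      have : (2 : ℝ) ^ j ≤ X := hj1.trans h2
      exact_mod_cast this
    · exact shell hC 𝓗 (2 ^ (j + 1)) Nat.one_le_two_pow n h0 (by push_cast; exact hj2.le)
        (by push_cast; rw [pow_succ]; linarith) hBn
  have hlin : ((((Finset.range J).biUnion fun j => A (2 ^ (j + 1)) ∪ B (2 ^ (j + 1))).image ι).card : ℝ) ≤
      ∑ j ∈ Finset.range J, (((A (2 ^ (j + 1))).card : ℝ) + (B (2 ^ (j + 1))).card) := by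
    have e1 := Finset.card_image_le (s := (Finset.range J).biUnion fun j => A (2 ^ (j + 1)) ∪ B (2 ^ (j + 1)))
      (f := ι)
    have e2 := Finset.card_biUnion_le (s := Finset.range J)
      (t := fun j => A (2 ^ (j + 1)) ∪ B (2 ^ (j + 1)))
    have e3 : ∑ j ∈ Finset.range J, (A (2 ^ (j + 1)) ∪ B (2 ^ (j + 1))).card ≤
        ∑ j ∈ Finset.range J, ((A (2 ^ (j + 1))).card + (B (2 ^ (j + 1))).card) :=
      Finset.sum_le_sum fun j _ => Finset.card_union_le _ _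
    have e4 := (e1.trans e2).trans e3
    exact_mod_cast e4
  have hone : ∀ j ∈ Finset.range J, (((A (2 ^ (j + 1))).card : ℝ) + (B (2 ^ (j + 1))).card) ≤
      2 * C * 2 ^ s * (X : ℝ) ^ s := by
    intro j hj
    obtain ⟨e1, e2⟩ := h (2 ^ (j + 1)) Nat.one_le_two_pow
    have e3 : ((2 ^ (j + 1) : ℕ) : ℝ) ≤ 2 * X := by
      rw [Finset.mem_range, hJ, Nat.lt_succ_iff] at hj
      have := (Nat.le_log_iff_pow_le (by norm_num) (by omega)).1 hj
      have h4 : 2 ^ (j + 1) ≤ 2 * X := by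
        rw [pow_succ]
        omega
      exact_mod_cast h4
    have e4 : ((2 ^ (j + 1) : ℕ) : ℝ) ^ s ≤ 2 ^ s * (X : ℝ) ^ s := by
      rw [← Real.mul_rpow (by norm_num) hX0.le]
      exact Real.rpow_le_rpow (by positivity) e3 hs0
    have e5 : ((A (2 ^ (j + 1))).card : ℝ) ≤ C * ((2 ^ (j + 1) : ℕ) : ℝ) ^ s := e1
    have e6 : ((B (2 ^ (j + 1))).card : ℝ) ≤ C * ((2 ^ (j + 1) : ℕ) : ℝ) ^ s := e2
    have e7 : (C : ℝ) * ((2 ^ (j + 1) : ℕ) : ℝ) ^ s ≤ C * (2 ^ s * (X : ℝ) ^ s) :=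
      mul_le_mul_of_nonneg_left e4 (by positivity)
    calc (((A (2 ^ (j + 1))).card : ℝ) + (B (2 ^ (j + 1))).card)
        ≤ C * (2 ^ s * (X : ℝ) ^ s) + C * (2 ^ s * (X : ℝ) ^ s) := add_le_add (e5.trans e7) (e6.trans e7)
      _ = 2 * C * 2 ^ s * (X : ℝ) ^ s := by ring
  have hJb : (J : ℝ) ≤ (1 + 1 / (ε * Real.log 2)) * (X : ℝ) ^ ε := by
    have hl2 : 0 < Real.log 2 := Real.log_pos (by norm_num)
    have h1 : ((Nat.log 2 X : ℕ) : ℝ) * Real.log 2 ≤ Real.log X := by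
      rw [← Real.log_pow]
      apply Real.log_le_log (by positivity)
      have := Nat.pow_log_le_self 2 (show X ≠ 0 by omega)
      exact_mod_cast this
    have h2 : Real.log X ≤ (X : ℝ) ^ ε / ε := Real.log_le_rpow_div hX0.le hε
    have h3 : (1 : ℝ) ≤ (X : ℝ) ^ ε := Real.one_le_rpow hX1 hε.le
    have h4 : ((Nat.log 2 X : ℕ) : ℝ) ≤ 1 / (ε * Real.log 2) * (X : ℝ) ^ ε := by
      calc ((Nat.log 2 X : ℕ) : ℝ) = ((Nat.log 2 X : ℕ) : ℝ) * Real.log 2 / Real.log 2 := by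
            field_simp
        _ ≤ ((X : ℝ) ^ ε / ε) / Real.log 2 := by gcongr; exact h1.trans h2
        _ = 1 / (ε * Real.log 2) * (X : ℝ) ^ ε := by field_simp
    rw [hJ]
    push_cast
    linarith
  calc ({z : Fin k → ℤ | (∀ i, |z i| ≤ (X : ℤ)) ∧
        ∃ n : Fin k → ℕ, (∀ i, (n i : ℤ) = z i) ∧ Bad K D d C 𝓗 n}.ncard : ℝ)
      ≤ ((((Finset.range J).biUnion fun j => A (2 ^ (j + 1)) ∪ B (2 ^ (j + 1))).image ι).card : ℝ) := by
        have := Set.ncard_le_ncard hcov (Finset.finite_toSet _)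
        rw [Set.ncard_coe_finset] at this
        exact_mod_cast this
    _ ≤ ∑ j ∈ Finset.range J, (((A (2 ^ (j + 1))).card : ℝ) + (B (2 ^ (j + 1))).card) := hlin
    _ ≤ ∑ j ∈ Finset.range J, 2 * C * 2 ^ s * (X : ℝ) ^ s := Finset.sum_le_sum hone
    _ = J * (2 * C * 2 ^ s * (X : ℝ) ^ s) := by
        rw [Finset.sum_const, Finset.card_range, nsmul_eq_mul]
    _ ≤ ((1 + 1 / (ε * Real.log 2)) * (X : ℝ) ^ ε) * (2 * C * 2 ^ s * (X : ℝ) ^ s) := by
        gcongr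
    _ = 2 * C * 2 ^ s * (1 + 1 / (ε * Real.log 2)) * (X : ℝ) ^ (s + ε) := by
        rw [Real.rpow_add hX0]
        ring

/-- **Main result.** -/
theorem result (k K D d : ℕ) (hk : 0 < k) : ∃ C : ℕ, 0 < C ∧
    ∀ (a τ θ : ℝ) (g : ℕ → ℝ → ℝ), 0 ≤ a →
      (∀ j : ℕ, ∀ x y : ℝ, a < x → x ≤ y → 0 < g j x ∧ g j x / x ≤ g j y / y) → 0 ≤ τ →
      (∀ x : ℝ, a < x → ∀ t : ℝ, τ < t → Summable fun j : ℕ => (g j x) ^ (-t)) → θ < 1 →
    ∀ 𝓗 : Set ℝ, ¬ BddAbove 𝓗 →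
    ∃ E : Set (Fin k → ℝ), dimH E ≤ ENNReal.ofReal (((k : ℝ) - 1 / C + τ) / (1 - θ)) ∧
      ∀ u : Fin k → ℝ, a < ‖u‖ → u ∉ E → ∀ c : ℝ, ∃ j₀ : ℕ, ∀ j : ℕ, j₀ ≤ j →
        ∀ n : Fin k → ℕ, (∀ i, 1 ≤ n i) →
        (∀ i, |(n i : ℝ) - g j ‖u‖ / ‖u‖ * u i| ≤ c * (g j ‖u‖) ^ θ) →
        ∀ N : ℝ, N = ‖(fun i => (n i : ℝ) : Fin k → ℝ)‖ →
        ∀ f : Fin k → Fin K → ℂ[X], (∀ i, Family D (N ^ (1 / (C : ℝ))) (f i)) →
          (∀ H : ℝ, 2 ≤ H → H ≤ Real.exp (Real.exp (N ^ (1 / (C : ℝ)))) →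
            ¬ Small d H (1 / (N * H) ^ C) (values f n)) ∧
          ∀ H₀ : ℝ, ∃ H ∈ 𝓗, H₀ ≤ H ∧ ¬ Small d H (1 / H ^ C) (values f n) := by
  classical
  obtain ⟨C, hC, hmain⟩ := AlgebraicPolynomialValues.result k K D d
  refine ⟨2 * C, by omega, fun a τ θ g ha hg hτ hconv hθ 𝓗 h𝓗 => ?_⟩
  have hC1 : (1 : ℝ) ≤ C := by exact_mod_cast hC
  have hk1 : (1 : ℝ) ≤ k := by exact_mod_cast hk
  have hs0 : 0 ≤ (k : ℝ) - 1 / C := by
    have : 1 / (C : ℝ) ≤ 1 := by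
      rw [div_le_one (by linarith)]
      exact hC1
    linarith
  obtain ⟨E, hE, h⟩ := vec_prop (ι := Fin k)
    (fun z _ => ∃ n : Fin k → ℕ, (∀ i, (n i : ℤ) = z i) ∧ Bad K D d C 𝓗 n) (fun z X Y _ h => h)
    (s := (k : ℝ) - 1 / C) hs0
    (fun ε hε => bad_card hk hC 𝓗 (fun T hT => ⟨(hmain T hT).1, (hmain T hT).2.2 𝓗 h𝓗⟩) ε hε)
    g a τ θ ⟨ha, hg⟩ hτ hconv hθ
  refine ⟨E, hE.trans ?_, fun u hu huE c => ?_⟩
  · apply ENNReal.ofReal_le_ofReal
    have hθ' : 0 < 1 - θ := by linarith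
    apply div_le_div_of_nonneg_right _ hθ'.le
    have : 1 / ((2 * C : ℕ) : ℝ) ≤ 1 / (C : ℝ) := by
      apply one_div_le_one_div_of_le (by linarith)
      push_cast
      linarith
    linarith
  obtain ⟨j₀, hj₀⟩ := h u hu huE c
  refine ⟨j₀, fun j hj n hn hz N hN f hf => ?_⟩
  have hN' : N = size n := hN
  subst hN'
  have hno : ¬ Bad K D d C 𝓗 n := by
    intro hbad
    apply hj₀ j hj (fun i => (n i : ℤ)) (by
      intro i
      have := hz i
      push_cast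
      exact this)
    exact ⟨n, fun i => rfl, hbad⟩
  refine ⟨fun H h2 hH hS => hno ⟨hn, f, hf, Or.inl ⟨H, h2, hH, hS⟩⟩, fun H₀ => ?_⟩
  by_contra hcon
  apply hno
  refine ⟨hn, f, hf, Or.inr ⟨H₀, fun H hH hle => ?_⟩⟩
  by_contra hS
  exact hcon ⟨H, hH, hle, hS⟩

end Pool.Agent.Results.MP_3cf473_nt.StarshapedAlgebraicValues
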